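import Mathlib
import Pool.Agent.H15.LK3

set_option autoImplicit false

namespace Pool.Agent.Results.MP_9da05b_an.Counter

open Pool.Agent.H15.LK

theorem result : ∃ (f : St → ℝ → ℝ) (V : St → ℝ) (c : ℝ), Continuous (Function.uncurry f) ∧
    (∀ ρ : ℝ, ∃ L : ℝ, ∀ (x x' : St) (v : ℝ), ‖x‖ ≤ ρ → ‖x'‖ ≤ ρ → |v| ≤ ρ →
      |f x v - f x' v| ≤ L * ‖x - x'‖) ∧ f 0 0 = 0 ∧ Continuous V ∧ Regular f V ∧ 0 < c ∧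
    (∀ x, |x z0| ^ 2 ≤ V x ∧ V x ≤ c * ‖x‖ ^ 2) ∧
    (∀ x v, |v| ≤ |x z0| → driver f V x v ≤ ((-|x z0| ^ 2 : ℝ) : EReal)) ∧ ¬ ISS f :=
  Pool.Agent.H15.LK.main

end Pool.Agent.Results.MP_9da05b_an.Counter
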